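import Pool.Agent.N516.SC.Stm

/-!
# No triangles in the glued graph (`MP_dce662_co`)
-/

set_option autoImplicit false

namespace Pool.Agent.N433.SC.C3

open Pool.Agent.N516.SC

variable {D : Fin 3 → Pool.Agent.N516.SC.Pointed}

/-- no triangle contains a centre vertex -/
theorem key (h : S_NB) (v : Ctr) (x y : W D) (h1 : (glue D).Adj (.inr v) x)
    (h2 : (glue D).Adj (.inr v) y) (h3 : (glue D).Adj x y) : False := by
  obtain ⟨hhu, hce, har, -, hne⟩ := h D
  have h3' := h3.symm
  rcases v with _ | ⟨i, _ | t⟩
  · rw [show (Sum.inr none : W D) = hu D from rfl, hhu] at h1 h2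
    rcases h1 with rfl | rfl | rfl <;> rw [hce] at h3 <;>
      rcases h2 with rfl | rfl | rfl <;> simp at h3
  · rw [show (Sum.inr (some (i, none)) : W D) = ce D i from rfl, hce] at h1 h2
    rcases h1 with rfl | rfl | rfl
    · rw [hhu] at h3
      rcases h2 with rfl | rfl | rfl <;> simp at h3
    · rw [har] at h3
      rcases h2 with rfl | rfl | rfl <;> simp [px, qx] at h3
    · rw [har] at h3
      rcases h2 with rfl | rfl | rfl <;> simp [px, qx] at h3
  · rw [show (Sum.inr (some (i, some t)) : W D) = ar D i t from rfl, har] at h1 h2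
    have hi : i + 1 ≠ i - 1 := by fin_cases i <;> decide
    rcases h1 with rfl | rfl | rfl
    · rw [hce] at h3
      rcases h2 with rfl | rfl | rfl <;> simp [px, qx] at h3
    · rcases h2 with rfl | rfl | rfl
      · rw [hce] at h3'
        simp [px] at h3'
      · exact (glue D).loopless.irrefl _ h3
      · exact hne _ _ _ _ hi h3
    · rcases h2 with rfl | rfl | rfl
      · rw [hce] at h3'
        simp [qx] at h3'
      · exact hne _ _ _ _ hi h3'
      · exact (glue D).loopless.irrefl _ h3

end Pool.Agent.N433.SC.C3

namespace Pool.Agent.N433.SC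

open Pool.Agent.N516.SC

theorem t_C3 (h : S_NB) : S_C3 := by
  intro D hD3 _ a b c hab hbc hac
  rcases a with ⟨i, a⟩ | a
  · rcases b with ⟨j, b⟩ | b
    · rcases c with ⟨k, c⟩ | c
      · obtain ⟨-, -, -, hin, hne⟩ := h D
        have hij : i = j := by
          by_contra hc
          exact hne _ _ _ _ hc hab
        subst hij
        have hik : i = k := by
          by_contra hc
          exact hne _ _ _ _ hc hac
        subst hik
        rw [hin] at hab hbc hac
        exact hD3 i _ _ _ hab hbc hac
      · exact C3.key h c _ _ hac.symm hbc.symm hab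
    · exact C3.key h b _ _ hab.symm hbc hac
  · exact C3.key h a _ _ hab hac hbc

end Pool.Agent.N433.SC
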